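import Pool.Agent.MP_77f003_co.H49.USpec

/-! Orbit sizes of open groups in unimodular graphs, and deep cores of smallest cuts. -/

set_option linter.unusedSectionVars false

namespace Pool.Agent.MP_77f003_co.H49

open SimpleGraph Filter

variable {V : Type} {G : SimpleGraph V}

/-- The translate of the orbit of `z` attached to a coset. -/
def largeS (W : Subgroup (G ≃g G)) (z : V) (c : (G ≃g G) ⧸ W) : Set V :=
  {x | ∃ g : G ≃g G, (g : (G ≃g G) ⧸ W) = c ∧ g z = x}

theorem largeS_mk (W : Subgroup (G ≃g G)) (z : V) (g : G ≃g G) :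
    largeS W z g = g '' MulAction.orbit W z := by
  ext x
  constructor
  · rintro ⟨g', h, rfl⟩
    refine ⟨_, ⟨⟨g⁻¹ * g', QuotientGroup.eq.1 h.symm⟩, rfl⟩, ?_⟩
    exact RelIso.apply_inv_self g (g' z)
  · rintro ⟨_, ⟨w, rfl⟩, rfl⟩
    exact ⟨g * w, QuotientGroup.mk_mul_of_mem g w.2, rfl⟩

theorem large_card (W : Subgroup (G ≃g G)) (z : V) (c : (G ≃g G) ⧸ W) :
    (largeS W z c).ncard = (MulAction.orbit W z).ncard := by
  obtain ⟨g, rfl⟩ := QuotientGroup.mk_surjective c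
  rw [largeS_mk, Set.ncard_image_of_injective _ g.injective]

theorem large_code {W : Subgroup (G ≃g G)} {u v : V}
    (h : ∀ φ : G ≃g G, φ u = u → φ v = v → φ ∈ W) :
    ∃ ψ : V × V → (G ≃g G) ⧸ W, ∀ g : G ≃g G, ψ (g u, g v) = g := by
  classical
  refine ⟨fun p => if h : ∃ g : G ≃g G, g u = p.1 ∧ g v = p.2 then h.choose else (1 : G ≃g G),
    fun g => ?_⟩
  have e : ∃ g' : G ≃g G, g' u = (g u, g v).1 ∧ g' v = (g u, g v).2 := ⟨g, rfl, rfl⟩
  simp only [dif_pos e]
  have key : ∀ (g' : G ≃g G) x, g' x = g x → (g'⁻¹ * g) x = x := fun g' x hx => by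
    rw [RelIso.mul_apply, ← hx, RelIso.inv_apply_self]
  exact QuotientGroup.eq.2 (h _ (key _ _ e.choose_spec.1) (key _ _ e.choose_spec.2))

theorem large_wsum (W : Subgroup (G ≃g G)) (z o : V) (h : {c | o ∈ largeS W z c}.Finite) :
    wsum (largeS W z) o (fun _ => 1) =
      ({c | o ∈ largeS W z c}.ncard : ℝ) / (MulAction.orbit W z).ncard := by
  simp only [wsum, large_card]
  rw [finsum_mem_eq_finite_toFinset_sum _ h, Finset.sum_const, Set.ncard_eq_toFinset_card _ h,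
    nsmul_eq_mul, mul_one_div]

theorem largeSpec (hF : FibSpec) : LargeSpec := by
  intro V G _ _ W u v ht hU huv hW hfix y
  obtain ⟨ψ, hψ⟩ := large_code hfix
  have gs : ∀ z, GS (G ≃g G) (largeS W z) := fun z =>
    { fin := fun c => by
        obtain ⟨g, rfl⟩ := QuotientGroup.mk_surjective c
        rw [largeS_mk]
        exact (hW z).image _
      ne := fun c => by
        obtain ⟨g, rfl⟩ := QuotientGroup.mk_surjective c
        exact ⟨_, g, rfl, rfl⟩
      eqv := by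
        rintro g _ _ ⟨g', rfl, rfl⟩
        exact ⟨g * g', rfl, rfl⟩
      lf := fun x => by
        refine (((finite_ball (G := G) x (G.dist z u)).prod
          (finite_ball (G := G) x (G.dist z v))).image ψ).subset ?_
        rintro _ ⟨g, rfl, rfl⟩
        exact ⟨(g u, g v), ⟨(dist_iso g z u).le, (dist_iso g z v).le⟩, hψ g⟩ }
  have key := hF u (largeS W u) (largeS W y) id (fun _ => 1) ⟨ht, hU u⟩ (gs u) (gs y)
    (fun _ _ => rfl) (fun c => Set.finite_singleton c) fun _ _ => rfl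
  have e : (fun c : (G ≃g G) ⧸ W => ∑ᶠ x ∈ {x | id x = c}, (1 : ℝ)) = fun _ => 1 :=
    funext fun c => finsum_mem_singleton
  have pos : ∀ z, 0 < (MulAction.orbit W z).ncard := fun z =>
    (Set.ncard_pos (hW z)).2 ⟨z, MulAction.mem_orbit_self z⟩
  rw [e, large_wsum _ _ _ ((gs u).lf u), large_wsum _ _ _ ((gs y).lf u),
    div_eq_div_iff (Nat.cast_ne_zero.2 (pos u).ne') (Nat.cast_ne_zero.2 (pos y).ne')] at key
  have h1 : {c | u ∈ largeS W u c}.ncard ≤ G.degree u := by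
    rw [← card_neighborFinset_eq_degree, ← Set.ncard_coe_finset]
    refine le_trans (Set.ncard_le_ncard ?_ ((Finset.finite_toSet _).image _))
      (Set.ncard_image_le (f := fun x => ψ (u, x)) (Finset.finite_toSet _))
    rintro _ ⟨g, rfl, hg⟩
    refine ⟨g v, ?_, by rw [← hψ g, hg]⟩
    rw [Finset.mem_coe, mem_neighborFinset, ← hg, g.map_adj_iff]
    exact huv
  have h2 : 0 < {c | u ∈ largeS W y c}.ncard := by
    obtain ⟨g, hg⟩ := ht y u
    exact (Set.ncard_pos ((gs y).lf u)).2 ⟨_, g, rfl, hg⟩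
  have h3 : {c | u ∈ largeS W u c}.ncard * (MulAction.orbit W y).ncard =
      {c | u ∈ largeS W y c}.ncard * (MulAction.orbit W u).ncard := by exact_mod_cast key
  exact (Nat.le_mul_of_pos_left _ h2).trans (h3.ge.trans (Nat.mul_le_mul_right _ h1))

theorem deep_conn (B : Set V) (y : V) : Conn G {x | Lk G B x y} := by
  have key : ∀ x, Lk G B x y → Lk G {x | Lk G B x y} x y := fun x hx => by
    obtain ⟨P, -, h1, h2, h3⟩ := Lk.fin hx
    exact (h3 _ h2).mono fun z hz => (h3 z hz).mono h1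
  exact fun x hx z hz => (key x hx).trans (key z hz).symm

theorem deepSpec : DeepSpec := by
  classical
  intro V G _ _ Δ R A hΔ ⟨α, β, hα, _, hsp, hmin⟩
  set I : Set V := {x | ∀ y ∉ A, R < G.dist x y} with hI
  have hIA : I ⊆ A := fun x hx => by_contra fun h => by simpa using hx x h
  set X : Finset V := hsp.1.toFinset.biUnion fun p => ball G p.2 R with hX
  have hXm : ∀ x, x ∈ X ↔ ∃ p ∈ cb G 1 A, G.dist p.2 x ≤ R := fun x => by
    simp only [hX, Finset.mem_biUnion, Set.Finite.mem_toFinset, mem_ball]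
  have hXI : ∀ x ∈ A, x ∉ I → x ∈ X := fun x hx h => by
    simp only [hI, Set.mem_ofPred_eq, not_forall, not_lt] at h
    obtain ⟨y, hy, h⟩ := h
    obtain ⟨p, p1, p2, -⟩ := (Lk.ball (G := G) (S := {z | G.dist x z ≤ G.dist x y})
      fun z hz => hz).cross hx hy
    exact (hXm x).2 ⟨p, p1, by rw [dcomm]; exact le_trans p2 h⟩
  set Y : Finset (V × V) := X.biUnion fun y => (ball G y 1).image fun x => (x, y) with hY
  have hout : ∀ a, ∀ p ∈ cb G 1 {x | Lk G I x a}, p.2 ∈ X := by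
    rintro a p ⟨p1, p2, p3⟩
    by_cases h : p.2 ∈ A
    · exact hXI _ h fun h' => p2 ((Lk.near p3 p1.left h').symm.trans p1)
    · exact (hXm _).2 ⟨p, ⟨hIA p1.left, h, p3⟩, by simp⟩
  have hsub : ∀ a, cb G 1 {x | Lk G I x a} ⊆ Y := fun a p hp =>
    Finset.mem_coe.2 (Finset.mem_biUnion.2 ⟨_, hout a p hp,
      Finset.mem_image.2 ⟨p.1, mem_ball.2 (by rw [dcomm]; exact hp.2.2), rfl⟩⟩)
  have hYc : Y.card ≤ (cb G 1 A).ncard * (Δ + 1) ^ (R + 1) := by
    have e1 : X.card ≤ (cb G 1 A).ncard * (Δ + 1) ^ R := by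
      rw [Set.ncard_eq_toFinset_card _ hsp.1]
      exact Finset.card_biUnion_le_card_mul _ _ _ fun p _ => card_ball_le hΔ _ _
    refine (Finset.card_biUnion_le_card_mul _ _ ((Δ + 1) ^ 1) fun y _ =>
      Finset.card_image_le.trans (card_ball_le hΔ _ _)).trans ?_
    rw [pow_add, ← mul_assoc]
    exact Nat.mul_le_mul_right _ e1
  obtain ⟨N, hN⟩ := hα.lk X.finite_toSet
  obtain ⟨n, n1, n2⟩ := (hsp.2.1.and (eventually_ge_atTop N)).exists
  obtain ⟨b, hb⟩ := hsp.2.2.exists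
  have ha : α n ∈ I := by_contra fun h => (hN n n2).right (hXI _ n1 h)
  have hk : 0 < (cb G 1 A).ncard := by
    obtain ⟨p, p1, -⟩ := cross_geo (G := G) n1 hb
    exact (Set.ncard_pos hsp.1).2 ⟨p, p1⟩
  have hD : Sp G α β {x | Lk G I x (α n)} := by
    refine ⟨Y.finite_toSet.subset (hsub _), ?_, hsp.2.2.mono fun _ h h' => h (hIA h'.left)⟩
    filter_upwards [eventually_ge_atTop N] with k hk
    by_contra hc
    obtain ⟨p, p1, p2, -⟩ := ((hN n n2).symm.trans (hN k hk)).cross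
      (A := {x | Lk G I x (α n)}) (Lk.refl ha) hc
    exact p2 (hout _ p p1)
  have hmap : ∀ φ ∈ (stab A : Subgroup (G ≃g G)), ∀ x a, Lk G I x a → Lk G I (φ x) (φ a) := by
    intro φ hφ x a h
    refine (h.map φ).mono ?_
    rintro _ ⟨z, hz, rfl⟩ y hy
    rw [← RelIso.apply_inv_self φ y] at hy ⊢
    rw [dist_iso]
    exact hz _ fun h => hy ((hφ _).2 h)
  have htr : ∀ D' ∈ {D' | ∃ φ ∈ (stab A : Subgroup (G ≃g G)), D' = φ '' {x | Lk G I x (α n)}},
      (cb G 1 A).ncard ≤ (cb G 1 D').ncard ∧ cb G 1 D' ⊆ Y ∧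
        ∀ p ∈ cb G 1 D', {x | Lk G I x p.1} = D' := by
    rintro _ ⟨φ, hφ, rfl⟩
    have e : φ '' {x | Lk G I x (α n)} = {x | Lk G I x (φ (α n))} := by
      ext x
      constructor
      · rintro ⟨z, hz, rfl⟩
        exact hmap φ hφ _ _ hz
      · intro hx
        have := hmap _ (inv_mem hφ) _ _ hx
        rw [RelIso.inv_apply_self] at this
        exact ⟨_, this, RelIso.apply_inv_self φ x⟩
    refine ⟨?_, e ▸ hsub _, ?_⟩
    · rw [RelIso.image_eq_preimage_symm, (cb_pre' φ.symm 1 _).1]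
      exact hmin _ hD
    · rw [e]
      exact fun p hp => Set.ext fun x => ⟨fun h => h.trans hp.1, fun h => h.trans hp.1.symm⟩
  refine ⟨{x | Lk G I x (α n)}, ⟨_, Lk.refl ha⟩, deep_conn _ _, fun x hx => hx.left, ?_⟩
  generalize {D' | ∃ φ ∈ (stab A : Subgroup (G ≃g G)), D' = φ '' {x | Lk G I x (α n)}} = T at htr
  have hT : T.Finite := by
    refine (Y.finite_toSet.image fun p => {x | Lk G I x p.1}).subset fun D' hD' => ?_
    obtain ⟨e1, e2, e3⟩ := htr D' hD'
    obtain ⟨p, hp⟩ := Set.nonempty_of_ncard_ne_zero (hk.trans_le e1).ne'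
    exact ⟨p, e2 hp, e3 p hp⟩
  have h1 := Finset.mul_card_image_le_card_of_maps_to
    (s := Y.filter fun p => {x | Lk G I x p.1} ∈ T) (t := hT.toFinset)
    (f := fun p => {x | Lk G I x p.1}) (fun p hp => hT.mem_toFinset.2 (Finset.mem_filter.1 hp).2)
    (cb G 1 A).ncard fun D' hD' => by
      rw [hT.mem_toFinset] at hD'
      obtain ⟨e1, e2, e3⟩ := htr D' hD'
      rw [← Set.ncard_coe_finset]
      refine e1.trans (Set.ncard_le_ncard (fun p hp => ?_) (Finset.finite_toSet _))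
      exact Finset.mem_coe.2 (Finset.mem_filter.2 ⟨Finset.mem_filter.2 ⟨e2 hp, (e3 p hp).symm ▸ hD'⟩,
        e3 p hp⟩)
  have h2 := Nat.le_of_mul_le_mul_left (h1.trans ((Finset.card_filter_le _ _).trans hYc)) hk
  rw [hT.encard_eq_coe_toFinset_card, Nat.cast_le]
  exact h2.trans (Nat.pow_le_pow_right (Nat.succ_pos _) (Nat.le_succ _))

end Pool.Agent.MP_77f003_co.H49
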