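import Pool.Agent.MP_77f003_co.H49.USpec

/-! Many legs running into one leg give a comb or a star. -/

set_option linter.unusedSectionVars false

namespace Pool.Agent.MP_77f003_co.H49

open SimpleGraph

variable {V : Type} {G : SimpleGraph V}

theorem teeth_ramsey (L s : ℕ) (τ : ℕ → ℕ) (k : ℕ) : ∀ J : Finset ℕ, s * k ≤ J.card →
    (∃ a, s ≤ (J.filter fun j => a ≤ τ j ∧ τ j < a + (L + 1)).card) ∨
    ∃ I ⊆ J, k ≤ I.card ∧ ∀ j ∈ I, ∀ l ∈ I, j ≠ l → τ j + L < τ l ∨ τ l + L < τ j := by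
  induction k with
  | zero => exact fun J _ => Or.inr ⟨∅, by simp⟩
  | succ k ih =>
    intro J hJ
    rcases J.eq_empty_or_nonempty with rfl | hne
    · exact Or.inl ⟨0, by rw [Nat.mul_succ] at hJ; simp at hJ ⊢; omega⟩
    obtain ⟨j₀, h0, h1⟩ := J.exists_min_image τ hne
    by_cases h : s ≤ (J.filter fun j => τ j₀ ≤ τ j ∧ τ j < τ j₀ + (L + 1)).card
    · exact Or.inl ⟨_, h⟩
    have h2 := J.card_filter_add_card_filter_not fun j => τ j₀ ≤ τ j ∧ τ j < τ j₀ + (L + 1)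
    rw [Nat.mul_succ] at hJ
    rcases ih (J.filter fun j => ¬(τ j₀ ≤ τ j ∧ τ j < τ j₀ + (L + 1))) (by omega) with
      ⟨a, ha⟩ | ⟨I, hI, h3, h4⟩
    · exact Or.inl ⟨a, ha.trans (Finset.card_le_card
        (Finset.filter_subset_filter _ (Finset.filter_subset _ _)))⟩
    · have h5 : ∀ j ∈ I, j ∈ J ∧ τ j₀ + L < τ j := fun j hj => by
        have := Finset.mem_filter.1 (hI hj)
        have := h1 j this.1
        exact ⟨by tauto, by omega⟩
      have h6 : j₀ ∉ I := fun h => by have := (h5 _ h).2; omega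
      refine Or.inr ⟨insert j₀ I, Finset.insert_subset h0 fun j hj => (h5 j hj).1,
        by rw [Finset.card_insert_of_notMem h6]; omega, fun j hj l hl hjl => ?_⟩
      rw [Finset.mem_insert] at hj hl
      rcases hj with rfl | hj <;> rcases hl with rfl | hl
      exacts [absurd rfl hjl, Or.inl (h5 _ hl).2, Or.inr (h5 _ hj).2, h4 _ hj _ hl hjl]

theorem teeth_enum {I : Finset ℕ} {s : ℕ} (h : s ≤ I.card) :
    ∃ e : ℕ → ℕ, (∀ a < s, e a ∈ I) ∧ ∀ a < s, ∀ b < s, a ≠ b → e a ≠ e b :=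
  ⟨fun a => if ha : a < s then I.orderEmbOfCardLe h ⟨a, ha⟩ else 0,
    fun a ha => by simp only [dif_pos ha]; exact I.orderEmbOfCardLe_mem h _,
    fun a ha b hb hab e => by
      simp only [dif_pos ha, dif_pos hb] at e
      exact hab (congrArg Fin.val ((I.orderEmbOfCardLe h).injective e))⟩

theorem teeth_conn {S : Set V} {z : V} (h : ∀ x ∈ S, Lk G S x z) : Conn G S :=
  fun x hx y hy => (h x hx).trans (h y hy).symm

theorem teeth_comp (B : Set V) (y : V) : Conn G {x | Lk G B x y} := teeth_conn (z := y) fun _ hx => by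
  obtain ⟨P, -, h1, h2, h3⟩ := Lk.fin hx
  exact (h3 _ h2).mono fun z hz => (h3 z hz).mono h1

variable [Fact G.Connected] {W : Subgroup (G ≃g G)}

theorem teeth_inv (w : G ≃g G) (x y : V) : G.dist (w x) y = G.dist x (w⁻¹ y) := by
  rw [← dist_iso w x (w⁻¹ y), RelIso.apply_inv_self]

theorem teeth_many {ρ T P e : ℕ} (hB : Big G W ρ T) {S : Set V} {y : V}
    (h : ∀ x ∈ S, G.dist y x ≤ e) (hρ : P + 2 * e ≤ ρ) : Many W (Cl G W P S) T := by
  have h1 : Cl G W P S ≤ Cl G W ρ {y} := by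
    refine Subgroup.closure_mono ?_
    rintro w ⟨hw, x, hx, x', hx', hd⟩
    refine ⟨hw, y, rfl, y, rfl, ?_⟩
    have e1 := tri (G := G) y x (w y)
    have e2 := tri (G := G) x (w x') (w y)
    rw [dist_iso, dcomm x' y] at e2
    have := h x hx
    have := h x' hx'
    omega
  have h2 := Subgroup.relIndex_dvd_of_le_left W h1
  by_cases h3 : (Cl G W P S).relIndex W = 0
  · exact Or.inl h3
  · rcases hB y with h4 | h4
    · exact absurd (zero_dvd_iff.1 (h4 ▸ h2)) h3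
    · exact Or.inr (h4.trans (Nat.le_of_dvd (Nat.pos_of_ne_zero h3) h2))

/-- A comb whose hubs are whole orbits. -/
theorem teeth_build {K c ω P T s : ℕ} {S : ℕ → Set V} {m : ℕ} (t : ℕ → ℕ) (q : ℕ → ℕ → V)
    (A : ℕ → Set V) (u : ℕ → G ≃g G) (conn : ∀ a ≤ m, (S a).Nonempty ∧ Conn G (S a))
    (meet : ∀ a < m, (S a ∩ S (a + 1)).Nonempty)
    (far : ∀ a b, a ≤ b → b ≤ m → ∀ w ∈ W, ∀ x ∈ S a, ∀ y ∈ S b,
      min c ((b - a) / 3) ≤ G.dist x (w y) + 1)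
    (many : ∀ a ≤ m, Many W (Cl G W P (⋃ b ∈ {b | a ≤ b ∧ b ≤ a + ω ∧ b ≤ m}, S b)) T)
    (att : ∀ i < s, u i ∈ W ∧ t i ≤ m ∧ u i (q i 0) ∈ S (t i))
    (step : ∀ i < s, ∀ l < c, G.dist (q i l) (q i (l + 1)) ≤ 1)
    (away : ∀ i < s, ∀ l ≤ c, ∀ a ≤ m, ∀ w ∈ W, ∀ x ∈ S a, l ≤ 2 * G.dist (q i l) (w x))
    (hub : ∀ i < s, Conn G (A i) ∧ q i c ∈ A i ∧ ∃ z, ∀ w ∈ W, w z ∈ A i)
    (off : ∀ i < s, ∀ z ∈ A i, ∀ a ≤ m, ∀ w ∈ W, ∀ x ∈ S a, c ≤ 2 * G.dist z (w x))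
    (sep : ∀ i < s, ∀ j < s, i ≠ j → ∀ w ∈ W, ∀ x ∈ A i ∪ q i '' Set.Iic c,
      ∀ y ∈ A j ∪ q j '' Set.Iic c, K ≤ G.dist x (w y)) :
    Comb G W K 1 c ω P T s S m t (fun i l => u i (q i l))
      (fun i => {x | ∃ w ∈ W, ∃ y ∈ A i, x = w y}) fun _ => W where
  conn := conn
  meet := meet
  far := far
  many := many
  att i hi := (att i hi).2
  step i hi l hl := by rw [dist_iso]; exact step i hi l hl
  away i hi l hl a ha w hw x hx := by
    rw [teeth_inv]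
    exact away i hi l hl a ha _ (W.mul_mem (W.inv_mem (att i hi).1) hw) x hx
  idx i _ := ⟨le_rfl, by simp, by simp⟩
  hub i hi := by
    obtain ⟨h1, h2, z, h3⟩ := hub i hi
    have hz : z ∈ A i := h3 1 W.one_mem
    refine ⟨teeth_conn (z := z) ?_, fun g hg => ⟨_, W.mul_mem hg (att i hi).1, _, h2, rfl⟩⟩
    rintro _ ⟨w, hw, y, hy, rfl⟩
    refine (((h1 y hy z hz).map w).mono ?_).trans ((h1 _ (h3 w hw) z hz).mono ?_)
    · rintro _ ⟨x, hx, rfl⟩
      exact ⟨w, hw, x, hx, rfl⟩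
    · exact fun x hx => ⟨1, W.one_mem, x, hx, rfl⟩
  off i hi := by
    rintro _ ⟨g, hg, z, hz, rfl⟩ a ha w hw x hx
    rw [teeth_inv]
    exact off i hi z hz a ha _ (W.mul_mem (W.inv_mem hg) hw) x hx
  sep i hi j hj hij w hw x hx y hy := by
    have key : ∀ i < s, ∀ x ∈ {x | ∃ w ∈ W, ∃ y ∈ A i, x = w y} ∪
        (fun l => u i (q i l)) '' Set.Iic c, ∃ g ∈ W, ∃ y ∈ A i ∪ q i '' Set.Iic c, x = g y := by
      rintro i hi _ (⟨g, hg, y, hy, rfl⟩ | ⟨l, hl, rfl⟩)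
      exacts [⟨g, hg, y, Or.inl hy, rfl⟩, ⟨_, (att i hi).1, _, Or.inr ⟨l, hl, rfl⟩, rfl⟩]
    obtain ⟨g, hg, x', hx', rfl⟩ := key i hi x hx
    obtain ⟨g', hg', y', hy', rfl⟩ := key j hj y hy
    rw [teeth_inv]
    exact sep i hi j hj hij _ (W.mul_mem (W.inv_mem hg) (W.mul_mem hw hg')) x' hx' y' hy'

section Legs

variable {f : V → ℕ} {N R : ℕ} {Z : ℕ → Set V} {lam : ℕ → ℕ → V} (hL : Legs G W f N R Z lam)
include hL

theorem teeth_lev {w : G ≃g G} (hw : w ∈ W) (x y : V) :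
    f x ≤ f y + G.dist x (w y) ∧ f y ≤ f x + G.dist x (w y) := by
  have h1 := hL.lip x (w y)
  have h2 := hL.lip (w y) x
  rw [dcomm] at h2
  rw [hL.inv w hw] at h1 h2
  exact ⟨h1, h2⟩

theorem teeth_lazy {j : ℕ} (hj : j < N) (t : ℕ) : G.dist (lam j t) (lam j (t + 1)) ≤ 1 :=
  (dist_adj (hL.step j hj t)).le

theorem teeth_leg {j : ℕ} (hj : j < N) (t t' : ℕ) :
    G.dist (lam j t) (lam j t') ≤ (t - t') + (t' - t) := by
  rcases le_total t t' with h | h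
  · exact (dist_geo_le (fun a _ => hL.step j hj a) h le_rfl).trans (Nat.le_add_left _ _)
  · rw [dcomm]
    exact (dist_geo_le (fun a _ => hL.step j hj a) h le_rfl).trans (Nat.le_add_right _ _)

theorem teeth_half {j : ℕ} (hj : j < N) {w : G ≃g G} (hw : w ∈ W) {x : V} {t : ℕ} (hx : f x = t)
    (t' : ℕ) : G.dist x (w (lam j t)) ≤ 2 * G.dist x (w (lam j t')) := by
  have h1 := tri (G := G) x (w (lam j t')) (w (lam j t))
  rw [dist_iso] at h1
  have h2 := teeth_leg hL hj t' t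
  have h3 := teeth_lev hL hw x (lam j t')
  rw [hL.lev j hj] at h3
  omega

theorem teeth_zinv {j : ℕ} (hj : j < N) {w : G ≃g G} (hw : w ∈ W) {z : V} (hz : z ∈ Z j) :
    w z ∈ Z j := (hL.zinv j hj hw z).2 hz

theorem teeth_zleg {j l : ℕ} (hj : j < N) (hl : l < N) (hjl : j ≠ l) {w : G ≃g G} (hw : w ∈ W)
    {z : V} (hz : z ∈ Z j) (t : ℕ) : R ≤ 2 * G.dist z (w (lam l t)) :=
  (hL.zfar j hj l hl hjl z hz _ (teeth_zinv hL hl hw (hL.start l hl))).trans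
    (teeth_half hL hl hw (hL.zlev j hj z hz) t)

theorem teeth_late {i j : ℕ} (hi : i < N) (hj : j < N) (hij : i ≠ j) {w : G ≃g G} (hw : w ∈ W)
    (t : ℕ) : R ≤ 2 * t + 2 * G.dist (lam i t) (w (lam j t)) := by
  have h1 := teeth_zleg hL hi hj hij hw (hL.start i hi) t
  have h0 := hL.zfar i hi j hj hij _ (hL.start i hi) _ (teeth_zinv hL hj hw (hL.start j hj))
  have h2 := tri (G := G) (lam i 0) (lam i t) (w (lam j 0))
  have h3 := tri (G := G) (lam i t) (w (lam j t)) (w (lam j 0))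
  rw [dist_iso] at h3
  have h4 := teeth_leg hL hi 0 t
  have h5 := teeth_leg hL hj t 0
  omega

theorem teeth_lk {j : ℕ} (hj : j < N) {b : ℕ} {A : Set V} (hA : Z j ∪ lam j '' Set.Iic b ⊆ A) :
    ∀ x ∈ Z j ∪ lam j '' Set.Iic b, Lk G A x (lam j 0) := by
  rintro x (hx | ⟨t, ht, rfl⟩)
  · exact (hL.zconn j hj x hx _ (hL.start j hj)).mono fun z hz => hA (Or.inl hz)
  · exact lk_lazy (teeth_lazy hL hj) fun k _ hk =>
      hA (Or.inr ⟨k, hk.trans (max_le ht (Nat.zero_le _)), rfl⟩)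

theorem teeth_low {j : ℕ} (hj : j < N) {b : ℕ} : ∀ x ∈ Z j ∪ lam j '' Set.Iic b, f x ≤ b := by
  rintro x (hx | ⟨t, ht, rfl⟩)
  · rw [hL.zlev j hj x hx]
    exact Nat.zero_le _
  · rw [hL.lev j hj]
    exact ht

theorem teeth_sep {j l : ℕ} (hj : j < N) (hl : l < N) (hjl : j ≠ l) {b b' D K : ℕ}
    (h : ∀ t ≤ b, t ≤ b' → ∀ w ∈ W, D < G.dist (lam j t) (w (lam l t))) (hD : 2 * K ≤ D)
    (hR : 2 * K ≤ R) {w : G ≃g G} (hw : w ∈ W) : ∀ x ∈ Z j ∪ lam j '' Set.Iic b,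
    ∀ y ∈ Z l ∪ lam l '' Set.Iic b', K ≤ G.dist x (w y) := by
  rintro x (hx | ⟨t, ht, rfl⟩) y (hy | ⟨t', ht', rfl⟩)
  · have := hL.zfar j hj l hl hjl x hx _ (teeth_zinv hL hl hw hy)
    omega
  · have := teeth_zleg hL hj hl hjl hw hx t'
    omega
  · have := teeth_zleg hL hl hj hjl.symm (W.inv_mem hw) hy t
    rw [← teeth_inv, dcomm] at this
    omega
  · rcases le_total t t' with e | e
    · have h1 := h t ht (e.trans ht') w hw
      have := teeth_half hL hl hw (hL.lev j hj t) t'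
      omega
    · have h1 := h t' (e.trans ht) ht' w hw
      have := teeth_half hL hj (W.inv_mem hw) (hL.lev l hl t') t
      rw [← teeth_inv, ← teeth_inv, dcomm, dcomm (w _)] at this
      omega

/-- The shortest path from the dying leg to the orbit of the surviving one. -/
theorem teeth_path {i j : ℕ} (hi : i < N) (hj : j < N) {τ r D : ℕ} {w₀ : G ≃g G} (hw₀ : w₀ ∈ W)
    (h1 : G.dist (lam i (τ + 1)) (w₀ (lam j (τ + 1))) ≤ r)
    (h2 : ∀ w ∈ W, D < G.dist (lam i τ) (w (lam j τ))) :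
    ∃ (t δ : ℕ) (u : G ≃g G) (q : ℕ → V), u ∈ W ∧ u (q 0) = lam i t ∧ q δ = lam j τ ∧ D < 2 * δ ∧
      (∀ l, G.dist (q l) (q (l + 1)) ≤ 1) ∧
      (∀ l ≤ δ, ∀ w ∈ W, ∀ a, l ≤ G.dist (q l) (w (lam i a))) ∧
      ∀ l ≤ δ, G.dist (q l) (w₀⁻¹ (lam i (τ + 1))) ≤ 2 * r + 2 := by
  classical
  have ex : ∃ δ, ∃ w ∈ W, ∃ t, G.dist (lam j τ) (w (lam i t)) = δ := ⟨_, 1, W.one_mem, 0, rfl⟩
  obtain ⟨w, hw, t, hδ⟩ := Nat.find_spec ex
  have hmin : ∀ w' ∈ W, ∀ a, Nat.find ex ≤ G.dist (lam j τ) (w' (lam i a)) :=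
    fun w' hw' a => Nat.find_min' ex ⟨w', hw', a, rfl⟩
  generalize Nat.find ex = δ at hδ hmin
  obtain ⟨q, q0, q1, q2⟩ := exists_lazy (G := G) (w (lam i t)) (lam j τ) (r := δ)
    (by rw [dcomm, hδ])
  have q3 : ∀ l ≤ δ, G.dist (q l) (lam j τ) ≤ δ - l := fun l hl => by
    have := dist_seq_le (G := G) (n := δ) (fun a _ => q2 a) l (δ - l) (by omega)
    rwa [Nat.add_sub_cancel' hl, q1, one_mul] at this
  have h3 : G.dist (lam j τ) (w₀⁻¹ (lam i (τ + 1))) ≤ r + 1 := by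
    have e1 := tri (G := G) (lam j τ) (lam j (τ + 1)) (w₀⁻¹ (lam i (τ + 1)))
    rw [← teeth_inv w₀ (lam j (τ + 1)), dcomm (w₀ _)] at e1
    have := teeth_lazy hL hj τ
    omega
  refine ⟨t, δ, w⁻¹, q, W.inv_mem hw, by rw [q0, RelIso.inv_apply_self], q1, ?_, q2,
    fun l hl w' hw' a => ?_, fun l hl => ?_⟩
  · have e1 := h2 _ (W.inv_mem hw)
    have e2 := teeth_half hL hi hw (hL.lev j hj τ) t
    rw [← teeth_inv, dcomm] at e1
    omega
  · have e1 := tri (G := G) (lam j τ) (q l) (w' (lam i a))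
    have e2 := q3 l hl
    have e3 := hmin w' hw' a
    rw [dcomm] at e2
    omega
  · have e1 := tri (G := G) (q l) (lam j τ) (w₀⁻¹ (lam i (τ + 1)))
    have e2 := q3 l hl
    have e3 := hmin _ (W.inv_mem hw₀) (τ + 1)
    omega

theorem teeth_star {K c ω P T s D M L ρ i a : ℕ} (hB : Big G W ρ T) (hi : i < N) (e τ : ℕ → ℕ)
    (hD : 2 * K ≤ D) (hR : 2 * (2 * M + 1 + c + L + K) ≤ R) (hρ : P + 2 * (2 * L + 2 * M + 1) ≤ ρ)
    (h1 : ∀ k < s, e k < N ∧ i ≠ e k ∧ a ≤ τ k ∧ τ k < a + L ∧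
      ∃ w ∈ W, G.dist (lam i (τ k)) (w (lam (e k) (τ k))) ≤ M)
    (h2 : ∀ k < s, ∀ l < s, k ≠ l → e k ≠ e l ∧
      ∀ t < τ k, t < τ l → ∀ w ∈ W, D < G.dist (lam (e k) t) (w (lam (e l) t))) :
    ∃ S m t γ H C, Comb G W K 1 c ω P T s S m t γ H C := by
  choose! hN hne h3 h4 u hu h5 using h1
  have ha : ∀ k < s, M + 1 + c ≤ a := fun k hk => by
    have := teeth_late hL hi (hN k hk) (hne k hk) (hu k hk) (τ k)
    have := h4 k hk
    have := h5 k hk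
    omega
  set B : Set V := {z | a - (M + 1) ≤ f z ∧ G.dist (lam i a) z ≤ 2 * L + 2 * M + 1} with hBd
  have hlev : ∀ x ∈ {x | Lk G B x (lam i a)}, a - (M + 1) ≤ f x := fun x hx => (Lk.left hx).1
  have hsub : ∀ k, (Z (e k) ∪ lam (e k) '' Set.Iic (a - (M + 1) - c)) ∪
      (fun l => lam (e k) (a - (M + 1) - l)) '' Set.Iic c ⊆
      Z (e k) ∪ lam (e k) '' Set.Iic (a - (M + 1)) := by
    rintro k x ((hx | ⟨t, ht, rfl⟩) | ⟨l, -, rfl⟩)
    exacts [Or.inl hx, Or.inr ⟨t, le_trans ht (Nat.sub_le _ _), rfl⟩,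
      Or.inr ⟨_, Nat.sub_le _ _, rfl⟩]
  refine ⟨_, _, _, _, _, _, teeth_build (S := fun _ => {x | Lk G B x (lam i a)}) (m := 0)
    (fun _ => 0) (fun k l => lam (e k) (a - (M + 1) - l))
    (fun k => Z (e k) ∪ lam (e k) '' Set.Iic (a - (M + 1) - c)) u
    (fun _ _ => ⟨⟨_, Lk.refl ⟨by rw [hL.lev i hi]; omega, by simp⟩⟩, teeth_comp _ _⟩)
    (fun _ h => absurd h (Nat.not_lt_zero _)) (fun a b _ hb _ _ _ _ _ _ => by omega)
    (fun _ _ => teeth_many hB (y := lam i a) (fun x hx => ?_) hρ)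
    (fun k hk => ⟨hu k hk, le_rfl, ?_⟩) (fun k hk l _ => ?_) (fun k hk l hl _ _ w hw x hx => ?_)
    (fun k hk => ⟨teeth_conn (teeth_lk hL (hN k hk) le_rfl), Or.inr ⟨_, Set.self_mem_Iic, rfl⟩, _,
      fun w hw => Or.inl (teeth_zinv hL (hN k hk) hw (hL.start _ (hN k hk)))⟩)
    (fun k hk z hz _ _ w hw x hx => ?_) fun k hk l hl hkl w hw x hx y hy => ?_⟩
  · simp only [Set.mem_iUnion] at hx
    obtain ⟨_, _, hx⟩ := hx
    exact (Lk.left hx).2
  · have e1 := h3 k hk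
    have e2 := h4 k hk
    have e3 := h5 k hk
    have e4 := teeth_leg hL hi a (τ k)
    refine (lk_lazy (w := fun t => u k (lam (e k) t)) (j := τ k)
      (fun t => by rw [dist_iso]; exact teeth_lazy hL (hN k hk) t) fun t t1 t2 => ?_).trans
      ((Lk.ball (x := lam i (τ k)) fun z hz => ?_).symm.trans
        (lk_lazy (teeth_lazy hL hi) fun t t1 t2 => ?_))
    · have e5 := tri (G := G) (lam i a) (lam i (τ k)) (u k (lam (e k) t))
      have e6 := tri (G := G) (lam i (τ k)) (u k (lam (e k) (τ k))) (u k (lam (e k) t))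
      have e7 := teeth_leg hL (hN k hk) (τ k) t
      rw [dist_iso] at e6
      exact ⟨by rw [hL.inv _ (hu k hk), hL.lev _ (hN k hk)]; omega, by omega⟩
    · have e5 := tri (G := G) (lam i a) (lam i (τ k)) z
      have e6 := hL.lip (lam i (τ k)) z
      rw [hL.lev i hi] at e6
      exact ⟨by omega, by omega⟩
    · have e5 := teeth_leg hL hi a t
      exact ⟨by rw [hL.lev i hi]; omega, by omega⟩
  · have := teeth_leg hL (hN k hk) (a - (M + 1) - l) (a - (M + 1) - (l + 1))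
    omega
  · have e1 := (teeth_lev hL hw (lam (e k) (a - (M + 1) - l)) x).2
    have e2 := hlev x hx
    have e3 := ha k hk
    rw [hL.lev _ (hN k hk)] at e1
    omega
  · have e1 := (teeth_lev hL hw z x).2
    have e2 := hlev x hx
    have e3 := ha k hk
    have e4 := teeth_low hL (hN k hk) z hz
    omega
  · have e1 := h3 k hk
    have e2 := h3 l hl
    have e3 := ha k hk
    exact teeth_sep hL (hN k hk) (hN l hl) (h2 k hk l hl hkl).1
      (fun t t1 _ => (h2 k hk l hl hkl).2 t (by omega) (by omega)) hD (by omega) hw x (hsub k hx) y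
      (hsub l hy)

theorem teeth_comb {K c ω P T s D M ρ i m : ℕ} (hB : Big G W ρ T) (hi : i < N) (e τ r : ℕ → ℕ)
    (hD : 2 * c + 2 * K + 4 ≤ D) (hR : 2 * K + 4 * M + 4 + c ≤ R) (hρ : P + 2 * (ω + 1) ≤ ρ)
    (h1 : ∀ k < s, e k < N ∧ i ≠ e k ∧ D ≤ r k ∧ r k ≤ M ∧ τ k + 2 * M + 2 ≤ m ∧
      (∃ w ∈ W, G.dist (lam i (τ k)) (w (lam (e k) (τ k))) ≤ r k) ∧
      ∀ t < τ k, ∀ w ∈ W, D < G.dist (lam i t) (w (lam (e k) t)))
    (h2 : ∀ k < s, ∀ l < s, k ≠ l → e k ≠ e l ∧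
      (τ k + (4 * M + 4 + K) < τ l ∨ τ l + (4 * M + 4 + K) < τ k) ∧
      (∀ t < τ k, t < τ l → ∀ w ∈ W, D < G.dist (lam (e k) t) (w (lam (e l) t))) ∧
      (τ k < τ l → ∀ w ∈ W, 10 * r k < G.dist (lam i (τ k)) (w (lam (e l) (τ k))))) :
    ∃ S m t γ H C, Comb G W K 1 c ω P T s S m t γ H C := by
  choose! hN hne hr hM hm hv h3 using h1
  choose! v hv h4 using hv
  have h5 : ∀ k < s, τ k - 1 + 1 = τ k := fun k hk => by
    have := teeth_late hL hi (hN k hk) (hne k hk) (hv k hk) (τ k)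
    have := h4 k hk
    have := hM k hk
    omega
  have h6 := fun k hk => teeth_path hL hi (hN k hk) (hv k hk) (τ := τ k - 1) (r := r k) (D := D)
    (by rw [h5 k hk]; exact h4 k hk) (h3 k hk _ (by have := h5 k hk; omega))
  have : Nonempty V := ⟨lam i 0⟩
  choose! t δ u q hu q0 q1 q2 q3 q4 q5 using h6
  have q6 : ∀ k < s, ∀ l ≤ δ k, τ k ≤ f (q k l) + (2 * M + 2) ∧ f (q k l) ≤ τ k + (2 * M + 2) := by
    intro k hk l hl
    have e1 := teeth_lev hL (W.inv_mem (hv k hk)) (q k l) (lam i (τ k))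
    have e2 := q5 k hk l hl
    have e3 := hM k hk
    rw [h5 k hk] at e2
    rw [hL.lev i hi] at e1
    omega
  have hc : ∀ k < s, c ≤ δ k := fun k hk => by have := q2 k hk; omega
  have hS : ∀ a, ∀ x ∈ ({lam i a, lam i (a + 1)} : Set V), ∃ b, a ≤ b ∧ b ≤ a + 1 ∧ x = lam i b := by
    rintro a x (rfl | rfl)
    exacts [⟨a, le_rfl, by omega, rfl⟩, ⟨a + 1, by omega, le_rfl, rfl⟩]
  have hsub : ∀ k < s, ∀ x ∈ ((Z (e k) ∪ lam (e k) '' Set.Iic (τ k - 1)) ∪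
      q k '' Set.Icc c (δ k)) ∪ q k '' Set.Iic c,
      x ∈ Z (e k) ∪ lam (e k) '' Set.Iic (τ k - 1) ∨ ∃ l ≤ δ k, x = q k l := by
    rintro k hk x ((hx | ⟨l, hl, rfl⟩) | ⟨l, hl, rfl⟩)
    exacts [Or.inl hx, Or.inr ⟨l, hl.2, rfl⟩, Or.inr ⟨l, le_trans hl (hc k hk), rfl⟩]
  have key : ∀ k < s, ∀ l < s, k ≠ l → τ k < τ l → ∀ w ∈ W, ∀ x y,
      (x ∈ Z (e k) ∪ lam (e k) '' Set.Iic (τ k - 1) ∨ ∃ a ≤ δ k, x = q k a) →
      (y ∈ Z (e l) ∪ lam (e l) '' Set.Iic (τ l - 1) ∨ ∃ a ≤ δ l, y = q l a) →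
      K ≤ G.dist x (w y) := by
    intro k hk l hl hkl hτ w hw x y hx hy
    obtain ⟨e1, e2, e3, e4⟩ := h2 k hk l hl hkl
    have e5 := h5 k hk
    have e6 := teeth_lev hL hw x y
    rcases hx with hx | ⟨a, ha, rfl⟩ <;> rcases hy with hy | ⟨b, hb, rfl⟩
    · exact teeth_sep hL (hN k hk) (hN l hl) e1 (fun t t1 _ => e3 t (by omega) (by omega))
        (by omega) (by omega) hw x hx y hy
    · have := teeth_low hL (hN k hk) x hx
      have := q6 l hl b hb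
      omega
    · have e7 := q5 k hk a ha
      have e8 := hM k hk
      have e9 := hr k hk
      rw [e5] at e7
      have e10 := tri (G := G) (w y) (q k a) ((v k)⁻¹ (lam i (τ k)))
      rw [dcomm (w y) (q k a)] at e10
      rcases hy with hy | ⟨b, -, rfl⟩
      · have := teeth_zleg hL (hN l hl) hi (hne l hl).symm (W.inv_mem (hv k hk))
          (teeth_zinv hL (hN l hl) hw hy) (τ k)
        omega
      · have e11 := e4 hτ _ (W.mul_mem (hv k hk) hw)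
        have e12 := teeth_half hL (hN l hl) (W.mul_mem (hv k hk) hw) (hL.lev i hi (τ k)) b
        rw [← teeth_inv, dcomm (v k _)] at e10
        simp only [RelIso.mul_apply] at e11 e12
        omega
    · have := q6 k hk a ha
      have := q6 l hl b hb
      omega
  refine ⟨_, _, _, _, _, _, teeth_build (S := fun a => {lam i a, lam i (a + 1)}) (m := m) t q
    (fun k => (Z (e k) ∪ lam (e k) '' Set.Iic (τ k - 1)) ∪ q k '' Set.Icc c (δ k)) u
    (fun a _ => ⟨⟨_, Or.inl rfl⟩, teeth_conn (z := lam i a) ?_⟩)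
    (fun a _ => ⟨_, Or.inr rfl, Or.inl rfl⟩) (fun a b _ _ w hw x hx y hy => ?_)
    (fun a _ => teeth_many hB (y := lam i a) (fun x hx => ?_) hρ)
    (fun k hk => ⟨hu k hk, ?_, Or.inl (q0 k hk)⟩) (fun k hk l _ => q3 k hk l)
    (fun k hk l hl a _ w hw x hx => ?_)
    (fun k hk => ⟨teeth_conn (z := lam (e k) 0) ?_, Or.inr ⟨_, ⟨le_rfl, hc k hk⟩, rfl⟩, _,
      fun w hw => Or.inl (Or.inl (teeth_zinv hL (hN k hk) hw (hL.start _ (hN k hk))))⟩)
    (fun k hk z hz a _ w hw x hx => ?_) fun k hk l hl hkl w hw x hx y hy => ?_⟩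
  · rintro x (rfl | rfl)
    exacts [Lk.refl (Or.inl rfl), Lk.adj (hL.step i hi a).symm (Or.inr rfl) (Or.inl rfl)]
  · obtain ⟨a', -, _, rfl⟩ := hS a x hx
    obtain ⟨b', _, -, rfl⟩ := hS b y hy
    have := (teeth_lev hL hw (lam i a') (lam i b')).2
    rw [hL.lev i hi, hL.lev i hi] at this
    omega
  · simp only [Set.mem_iUnion] at hx
    obtain ⟨b, ⟨_, _, -⟩, hx⟩ := hx
    obtain ⟨b', _, _, rfl⟩ := hS b x hx
    have := teeth_leg hL hi a b'
    omega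
  · have e1 := q6 k hk 0 (Nat.zero_le _)
    have e2 := hm k hk
    rw [← hL.inv _ (hu k hk), q0 k hk, hL.lev i hi] at e1
    omega
  · obtain ⟨b, -, -, rfl⟩ := hS a x hx
    have := q4 k hk l (hl.trans (hc k hk)) w hw b
    omega
  · have e1 := teeth_lk hL (hN k hk) (b := τ k - 1)
      (Set.subset_union_left (t := q k '' Set.Icc c (δ k)))
    rintro x (hx | ⟨l, hl, rfl⟩)
    · exact e1 x hx
    · refine (lk_lazy (q3 k hk) (j := δ k) fun a a1 a2 => Or.inr ⟨a, ?_, rfl⟩).trans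
        (e1 _ (Or.inr ⟨_, Set.self_mem_Iic, (q1 k hk).symm⟩))
      have := hl.1
      have := hl.2
      exact ⟨by omega, by omega⟩
  · obtain ⟨b, -, -, rfl⟩ := hS a x hx
    rcases hz with (hz | ⟨t', ht', rfl⟩) | ⟨l, hl, rfl⟩
    · have := teeth_zleg hL (hN k hk) hi (hne k hk).symm hw hz b
      omega
    · have e1 := h3 k hk t' (by have := h5 k hk; have : t' ≤ _ := ht'; omega) _ (W.inv_mem hw)
      have e2 := teeth_half hL hi hw (hL.lev _ (hN k hk) t') b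
      rw [← teeth_inv, dcomm] at e1
      omega
    · have := q4 k hk l hl.2 w hw b
      have := hl.1
      omega
  · rcases (h2 k hk l hl hkl).2.1 with h | h
    · exact key k hk l hl hkl (by omega) w hw x y (hsub k hk x hx) (hsub l hl y hy)
    · rw [dcomm, teeth_inv]
      exact key l hl k hk hkl.symm (by omega) _ (W.inv_mem hw) y x (hsub l hl y hy) (hsub k hk x hx)

end Legs

theorem teethSpec (hC : CombSpec) : TeethSpec := by
  intro K h
  obtain ⟨c, ω, P, T, s, hc⟩ := hC K h 1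
  refine ⟨s * s, 2 * c + 2 * K + 4, fun D hD M => ⟨2 * (2 * M + 1 + c + (4 * M + 4 + K + 1) + K),
    P + 2 * (ω + 1 + (2 * (4 * M + 4 + K + 1) + 2 * M + 1)), T, ?_⟩⟩
  intro V G _ W f N Z lam hB hL i hi J τ r hiJ hn h1 h2
  have hne : ∀ j ∈ J, i ≠ j := fun j hj e => hiJ (e ▸ hj)
  rcases teeth_ramsey (4 * M + 4 + K) s τ s J hn with ⟨a, ha⟩ | ⟨I, hI, h3, h4⟩
  · obtain ⟨e, e1, e2⟩ := teeth_enum ha
    simp only [Finset.mem_filter] at e1
    obtain ⟨S, m, t, γ, H, C, hcomb⟩ := teeth_star hL (K := K) (c := c) (ω := ω) (P := P) (s := s)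
      (D := D) (M := M) (L := 4 * M + 4 + K + 1) (a := a) hB hi e (fun k => τ (e k)) (by omega)
      le_rfl (by omega) (fun k hk => by
        obtain ⟨a1, -, a2, ⟨w, hw, a3⟩, -⟩ := h1 _ (e1 k hk).1
        exact ⟨a1, hne _ (e1 k hk).1, (e1 k hk).2.1, (e1 k hk).2.2, w, hw, a3.trans a2⟩)
      fun k hk l hl hkl => ⟨e2 k hk l hl hkl,
        (h2 _ (e1 k hk).1 _ (e1 l hl).1 (e2 k hk l hl hkl)).1⟩
    exact hc G W S m t γ H C hcomb
  · obtain ⟨e, e1, e2⟩ := teeth_enum h3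
    obtain ⟨S, m, t, γ, H, C, hcomb⟩ := teeth_comb hL (K := K) (c := c) (ω := ω) (P := P) (s := s)
      (D := D) (M := M) (m := J.sup τ + 2 * M + 2) hB hi e (fun k => τ (e k)) (fun k => r (e k)) hD
      (by omega) (by omega) (fun k hk => by
        obtain ⟨a1, a2, a3, a4, a5⟩ := h1 _ (hI (e1 k hk))
        have := Finset.le_sup (f := τ) (hI (e1 k hk))
        exact ⟨a1, hne _ (hI (e1 k hk)), a2, a3, by omega, a4, a5⟩)
      fun k hk l hl hkl => ⟨e2 k hk l hl hkl, h4 _ (e1 k hk) _ (e1 l hl) (e2 k hk l hl hkl),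
        h2 _ (hI (e1 k hk)) _ (hI (e1 l hl)) (e2 k hk l hl hkl)⟩
    exact hc G W S m t γ H C hcomb

end Pool.Agent.MP_77f003_co.H49
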